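import Mathlib
import Pool.Agent.Q80.Circ2

/-!
# The circle-rooted parameter set can have arbitrarily many components
-/

open Polynomial Filter Topology Metric

namespace Pool.Agent.Results.MP_9de7c4_an.ManyComponents

/-- the darga `r + s` of `p = a_r x^r + ⋯ + a_s x^s`, `a_r ≠ 0 ≠ a_s` -/
noncomputable def darga (p : ℂ[X]) : ℕ := p.natTrailingDegree + p.natDegree

/-- `p` is a trim self-inversive polynomial of darga `n` -/
structure TrimSelfInversive (n : ℕ) (p : ℂ[X]) : Prop where
  ne_zero : p ≠ 0
  darga_eq : darga p = n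
  selfInversive : ∀ j ≤ n, p.coeff j = starRingEnd ℂ (p.coeff (n - j))
  trim : p.natDegree < darga p

/-- all roots lie on the unit circle -/
def CircleRooted (q : ℂ[X]) : Prop := ∀ z : ℂ, q.eval z = 0 → ‖z‖ = 1

/-- `p_α = α (x^n + 1) + p` -/
noncomputable def pAlpha (n : ℕ) (p : ℂ[X]) (α : ℝ) : ℂ[X] := C (α : ℂ) * (X ^ n + 1) + p

/-- the set `S(p)` of parameters `α > 0` with `p_α` circle rooted -/
def S (n : ℕ) (p : ℂ[X]) : Set ℝ := {α | 0 < α ∧ CircleRooted (pAlpha n p α)}

/-- the number of connected components of `S(p)` -/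
noncomputable def c (n : ℕ) (p : ℂ[X]) : ℕ∞ :=
  Set.encard {A : Set ℝ | ∃ α ∈ S n p, A = connectedComponentIn (S n p) α}

lemma pAlpha_eq (n : ℕ) (G : ℂ[X]) (α : ℝ) :
    pAlpha n (Q80.Circ.pp n G) α = Q80.Circ.pp n (C ((2 * α : ℝ) : ℂ) + G) := by
  unfold pAlpha Q80.Circ.pp Q80.Circ.cj
  rw [reflect_add, reflect_C, Polynomial.map_add, map_C, Complex.conj_ofReal]
  have h : (C ((2 * α : ℝ) : ℂ) : ℂ[X]) = C 2 * C (α : ℂ) := by
    rw [← C_mul]; push_cast; rfl
  have h2 : (C (1 / 2 : ℂ) * C 2 : ℂ[X]) = 1 := by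
    rw [← C_mul]; norm_num
  rw [h]
  linear_combination (-(C (α : ℂ) * (X ^ n + 1))) * h2

lemma pp_coeff {n : ℕ} (G : ℂ[X]) {j : ℕ} (hj : j ≤ n) : (Q80.Circ.pp n G).coeff j =
    1 / 2 * (G.coeff (n - j) + starRingEnd ℂ (G.coeff j)) := by
  unfold Q80.Circ.pp Q80.Circ.cj
  rw [coeff_C_mul, coeff_add, coeff_reflect, revAt_le hj, coeff_map]

lemma trimSelfInversive {n : ℕ} {G : ℂ[X]} (hG0 : G.coeff 0 = 0) (hG : G ≠ 0)
    (hn : 2 * G.natDegree < n) : TrimSelfInversive n (Q80.Circ.pp n G) := by
  set p := Q80.Circ.pp n G with hp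
  have hself : ∀ j ≤ n, p.coeff j = starRingEnd ℂ (p.coeff (n - j)) := by
    intro j hj
    rw [hp, pp_coeff G hj, pp_coeff G (Nat.sub_le _ _), Nat.sub_sub_self hj, map_mul, map_add,
      Complex.conj_conj]
    simp only [map_div₀, map_one, Complex.conj_ofNat]
    ring
  have hdeg : 0 < G.natDegree := by
    rw [Nat.pos_iff_ne_zero]
    intro h
    apply hG
    rw [eq_C_of_natDegree_eq_zero h, hG0, C_0]
  have hne : p.coeff G.natDegree ≠ 0 := by
    rw [hp, pp_coeff G (by omega), coeff_eq_zero_of_natDegree_lt (by omega : G.natDegree < n - _),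
      zero_add]
    apply mul_ne_zero (by norm_num)
    rw [Ne, map_eq_zero]
    exact leadingCoeff_ne_zero.2 hG
  have hp0 : p ≠ 0 := by
    intro h; rw [h] at hne; simp at hne
  have hlt : p.natDegree < n := by
    have : p.natDegree ≤ n - 1 := by
      rw [natDegree_le_iff_coeff_eq_zero]
      intro j hj
      by_cases hjn : j = n
      · rw [hjn, hp, pp_coeff G le_rfl, Nat.sub_self, hG0,
          coeff_eq_zero_of_natDegree_lt (by omega : G.natDegree < n)]
        simp
      · rw [hp]
        unfold Q80.Circ.pp Q80.Circ.cj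
        rw [coeff_C_mul, coeff_add, coeff_reflect, revAt_eq_self_of_lt (by omega), coeff_map,
          coeff_eq_zero_of_natDegree_lt (by omega : G.natDegree < j)]
        simp
    omega
  have hd : darga p = n := by
    unfold darga
    have h1 : p.coeff p.natDegree ≠ 0 := leadingCoeff_ne_zero.2 hp0
    have h2 : p.coeff (n - p.natDegree) ≠ 0 := by
      intro h
      apply h1
      rw [hself _ hlt.le, h, map_zero]
    have h3 := natTrailingDegree_le_of_ne_zero h2
    have h4 : p.coeff p.natTrailingDegree ≠ 0 := by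
      have := trailingCoeff_nonzero_iff_nonzero.2 hp0
      exact this
    have h5 : p.natTrailingDegree ≤ n := (natTrailingDegree_le_natDegree p).trans hlt.le
    have h6 : p.coeff (n - p.natTrailingDegree) ≠ 0 := by
      intro h
      apply h4
      rw [hself _ h5, h, map_zero]
    have h7 := le_natDegree_of_ne_zero h6
    omega
  exact ⟨hp0, hd, hself, by rw [hd]; exact hlt⟩

/-- For every `K` there is a trim self-inversive polynomial for which `S(p)` has at least `K`
connected components; so the supremum of the numbers of components is infinite. -/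
theorem result :
    (∀ K : ℕ, ∃ (n : ℕ) (p : ℂ[X]), TrimSelfInversive n p ∧ (K : ℕ∞) ≤ c n p) ∧
    (⨆ (n : ℕ) (p : ℂ[X]) (_ : TrimSelfInversive n p), c n p) = ⊤ := by
  have key : ∀ K : ℕ, ∃ (n : ℕ) (p : ℂ[X]), TrimSelfInversive n p ∧ (K : ℕ∞) ≤ c n p := by
    intro K
    obtain ⟨G, hG0, hgood, hbad⟩ := Q80.Circ.spiral K
    have hG : G ≠ 0 := by
      rintro rfl
      obtain ⟨w, _, hw⟩ := hbad 0 (Nat.zero_le _)
      rw [add_zero, eval_C] at hw
      have h1 : (1 + Real.exp (Real.pi * (2 * ((0 : ℕ) : ℝ) + 1)) : ℝ) = 0 := by exact_mod_cast hw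
      have := Real.exp_pos (Real.pi * (2 * ((0 : ℕ) : ℝ) + 1))
      linarith
    have hbad' : ∀ᶠ n in atTop, ∀ k ∈ Finset.range (K + 1), ∃ z : ℂ, ‖z‖ < 1 ∧
        (Q80.Circ.pp n (C (((1 + Real.exp (Real.pi * (2 * k + 1)) : ℝ)) : ℂ) + G)).eval z = 0 := by
      rw [Filter.eventually_all_finset]
      intro k hk
      rw [Finset.mem_range] at hk
      obtain ⟨w, hw, hw0⟩ := hbad k (by omega)
      refine Q80.Circ.bad ?_ hw hw0
      intro h
      have h1 := hgood k (by omega) 0 (by simp)
      have h2 : G = -C (((1 + Real.exp (Real.pi * (2 * k + 1)) : ℝ)) : ℂ) := by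
        linear_combination h
      have h3 := congrArg (fun q : ℂ[X] => q.coeff 0) h2
      simp only [coeff_neg, coeff_C_zero, hG0] at h3
      have h4 : (1 + Real.exp (Real.pi * (2 * k + 1)) : ℝ) = 0 := by
        have h5 : (((1 + Real.exp (Real.pi * (2 * k + 1)) : ℝ)) : ℂ) = 0 := by
          linear_combination h3
        exact_mod_cast h5
      have := Real.exp_pos (Real.pi * (2 * k + 1))
      linarith
    obtain ⟨n, hn1, hn2⟩ := (hbad'.and (eventually_gt_atTop (2 * G.natDegree))).exists
    refine ⟨n, Q80.Circ.pp n G, trimSelfInversive hG0 hG hn2, ?_⟩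
    set a : ℕ → ℝ := fun k => (1 + Real.exp (2 * Real.pi * k)) / 2 with ha
    set b : ℕ → ℝ := fun k => (1 + Real.exp (Real.pi * (2 * k + 1))) / 2 with hb
    have haS : ∀ k ≤ K, a k ∈ S n (Q80.Circ.pp n G) := by
      intro k hk
      refine ⟨by simp only [ha]; positivity, ?_⟩
      intro z hz
      rw [pAlpha_eq] at hz
      have e : 2 * a k = 1 + Real.exp (2 * Real.pi * k) := by simp only [ha]; ring
      rw [e] at hz
      refine Q80.Circ.good ?_ (hgood k hk) z hz
      refine lt_of_le_of_lt (natDegree_add_le _ _) ?_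
      rw [natDegree_C]
      omega
    have hbS : ∀ k ≤ K, b k ∉ S n (Q80.Circ.pp n G) := by
      intro k hk hmem
      obtain ⟨z, hz, hz0⟩ := hn1 k (Finset.mem_range.2 (by omega))
      have e : 2 * b k = 1 + Real.exp (Real.pi * (2 * k + 1)) := by simp only [hb]; ring
      have h1 := hmem.2 z (by rw [pAlpha_eq, e]; exact hz0)
      linarith
    have hab : ∀ k, a k < b k := by
      intro k
      simp only [ha, hb]
      have : Real.exp (2 * Real.pi * k) < Real.exp (Real.pi * (2 * k + 1)) := by
        apply Real.exp_lt_exp.2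
        nlinarith [Real.pi_pos]
      linarith
    have hba : ∀ k l, k < l → b k < a l := by
      intro k l hkl
      simp only [ha, hb]
      have h1 : (k : ℝ) + 1 ≤ l := by exact_mod_cast hkl
      have : Real.exp (Real.pi * (2 * k + 1)) < Real.exp (2 * Real.pi * l) := by
        apply Real.exp_lt_exp.2
        nlinarith [Real.pi_pos]
      linarith
    set f : Fin K → Set ℝ := fun k => connectedComponentIn (S n (Q80.Circ.pp n G)) (a k) with hf
    have hlt : ∀ i j : Fin K, i < j → f i ≠ f j := by
      intro i j hij h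
      have hi : a i ∈ f i := mem_connectedComponentIn (haS i (by omega))
      have hj : a j ∈ f i := by rw [h]; exact mem_connectedComponentIn (haS j (by omega))
      have hord : (f i).OrdConnected := isPreconnected_connectedComponentIn.ordConnected
      have hm := hord.out hi hj ⟨(hab i).le, (hba i j hij).le⟩
      exact hbS i (by omega) (connectedComponentIn_subset _ _ hm)
    have hinj : Function.Injective f := by
      intro i j h
      rcases lt_trichotomy i j with h1 | h1 | h1
      · exact absurd h (hlt i j h1)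
      · exact h1
      · exact absurd h.symm (hlt j i h1)
    have hcard : (Set.range f).encard = K := by
      rw [← Set.image_univ, hinj.encard_image, Set.encard_univ]
      simp
    unfold c
    rw [← hcard]
    apply Set.encard_le_encard
    rintro _ ⟨k, rfl⟩
    exact ⟨a k, haS k (by omega), rfl⟩
  refine ⟨key, ?_⟩
  rw [ENat.eq_top_iff_forall_ge]
  intro K
  obtain ⟨n, p, hp, hK⟩ := key K
  exact hK.trans (le_iSup_of_le n (le_iSup_of_le p (le_iSup_of_le hp le_rfl)))

end Pool.Agent.Results.MP_9de7c4_an.ManyComponents
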